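import Mathlib

/-!
# Drawings of graphs on closed oriented surfaces, recorded by their planarisation

A drawing of a connected graph on an oriented closed surface is recorded by the map obtained by
turning every crossing into a vertex of degree four.
-/

namespace Pool.Agent.KS6_63.HT

open Equiv

/-- The number of orbits (cycles, fixed points included) of a permutation. -/
noncomputable def numOrbits {D : Type} (σ : Perm D) : ℕ :=
  Nat.card (Quotient (Perm.SameCycle.setoid σ))

/-- A connected map on a closed oriented surface, given by its darts (directed edges).
`rot d` is the dart that follows `d` counterclockwise around the starting point of `d`, and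
`rev d` is `d` with the opposite direction.  The vertices of the map are the orbits of `rot`, its
edges are the orbits of `rev`, and its faces are the orbits of `rot * rev`. -/
structure SurfaceMap where
  /-- the darts -/
  D : Type
  /-- there are finitely many darts -/
  fin : Fintype D
  /-- the next dart counterclockwise around the starting point -/
  rot : Perm D
  /-- the reversed dart -/
  rev : Perm D
  rev_rev : ∀ d, rev (rev d) = d
  rev_ne : ∀ d, rev d ≠ d
  /-- the map is connected: `rot` and `rev` act transitively on the darts -/
  conn : ∀ s : Set D, s.Nonempty → (∀ d ∈ s, rot d ∈ s ∧ rev d ∈ s) → s = Set.univ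

/-- The Euler characteristic (vertices - edges + faces) of the surface carrying the map. -/
noncomputable def SurfaceMap.euler (M : SurfaceMap) : ℤ :=
  (numOrbits M.rot : ℤ) - (numOrbits M.rev : ℤ) + (numOrbits (M.rot * M.rev) : ℤ)

/-- The map can be drawn on the closed orientable surface of genus `g`: the genus of the map is
at most `g`, that is, its Euler characteristic is at least `2 - 2 g`. -/
def SurfaceMap.OnSurface (M : SurfaceMap) (g : ℕ) : Prop :=
  2 - 2 * (g : ℤ) ≤ M.euler

/-- A drawing of the simple graph `G` on an oriented closed surface, recorded by its
planarisation.  Every dart `d` of the planarisation is a piece of a directed edge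
`(src d, tgt d)` of `G`, and `pos d` is the number of crossings on this directed edge before the
piece `d`.  So the starting point of `d` is a vertex of `G` if `pos d = 0`, and a crossing if
`0 < pos d`. -/
structure Drawing {V : Type} (G : SimpleGraph V) extends SurfaceMap where
  src : D → V
  tgt : D → V
  pos : D → ℕ
  adj : ∀ d, G.Adj (src d) (tgt d)
  src_rev : ∀ d, src (rev d) = tgt d
  /-- every directed edge of `G` has exactly one first piece -/
  start : ∀ u v, G.Adj u v → ∃! d, src d = u ∧ tgt d = v ∧ pos d = 0
  /-- the first pieces of the edges leaving a vertex of `G` are arranged in one cycle of `rot` -/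
  vertex : ∀ d, pos d = 0 → pos (rot d) = 0 ∧ src (rot d) = src d
  vertex_cyclic : ∀ d d', pos d = 0 → pos d' = 0 → src d = src d' → rot.SameCycle d d'
  /-- at a crossing four darts meet -/
  cross : ∀ d, 0 < pos d → 0 < pos (rot d) ∧ rot (rot (rot (rot d))) = d
  /-- the edge through a crossing goes straight on: the piece before `d` on the same directed edge
  ends at the opposite side of the crossing -/
  cross_prev : ∀ d, 0 < pos d → src (rev (rot (rot d))) = src d ∧
    tgt (rev (rot (rot d))) = tgt d ∧ pos (rev (rot (rot d))) + 1 = pos d
  /-- two different edges of `G` cross there -/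
  cross_ne : ∀ d, 0 < pos d → ¬ (src (rot d) = src d ∧ tgt (rot d) = tgt d) ∧
    ¬ (src (rot d) = tgt d ∧ tgt (rot d) = src d)

/-- A drawing without crossings is an embedding. -/
def Drawing.IsEmbedding {V : Type} {G : SimpleGraph V} (𝒟 : Drawing G) : Prop :=
  ∀ d, 𝒟.pos d = 0

/-- The crossings of the directed edge `(u, v)` with the directed edge `(u', v')` at which
`(u, v)` crosses `(u', v')` from the left: at the crossing, the piece of `(u', v')` leaving the
crossing is the next dart counterclockwise after the piece `d` of `(u, v)` leaving it. -/
def Drawing.leftCrossings {V : Type} {G : SimpleGraph V} (𝒟 : Drawing G) (u v u' v' : V) :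
    Set 𝒟.D :=
  {d | 0 < 𝒟.pos d ∧ 𝒟.src d = u ∧ 𝒟.tgt d = v ∧ 𝒟.src (𝒟.rot d) = u' ∧ 𝒟.tgt (𝒟.rot d) = v'}

/-- Two edges `uv` and `u'v'` are independent if they share no vertex. -/
def Indep {V : Type} (u v u' v' : V) : Prop := u ≠ u' ∧ u ≠ v' ∧ v ≠ u' ∧ v ≠ v'

/-- For every pair of independent edges `e`, `f` (directed as `(u, v)` and `(u', v')`), the number
of crossings where `e` crosses `f` from the left equals the number where `e` crosses `f` from the
right (from the right of `(u', v')` is from the left of `(v', u')`). -/
def Drawing.IndepAlgZero {V : Type} {G : SimpleGraph V} (𝒟 : Drawing G) : Prop :=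
  ∀ u v u' v', G.Adj u v → G.Adj u' v' → Indep u v u' v' →
    Nat.card (𝒟.leftCrossings u v u' v') = Nat.card (𝒟.leftCrossings u v v' u')

/-- Every two independent edges cross an even number of times. -/
def Drawing.IndepEven {V : Type} {G : SimpleGraph V} (𝒟 : Drawing G) : Prop :=
  ∀ u v u' v', G.Adj u v → G.Adj u' v' → Indep u v u' v' →
    Even (Nat.card (𝒟.leftCrossings u v u' v') + Nat.card (𝒟.leftCrossings u v v' u'))

end Pool.Agent.KS6_63.HT
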