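import Mathlib
import Pool.Agent.KS6_63.HT.NoEmb

/-! # Drawings of the grid graph given by tables -/

namespace Pool.Agent.KS6_63.HT

open Equiv Module

variable {N M k : ℕ} [NeZero N]

/-- entry of a table of 11 bit numbers -/
def get (T i : ℕ) : ℕ := Nat.land (Nat.shiftRight T (11 * i)) 2047

/-- code of a dart of the grid -/
def encL : Ed N M × Bool → ℕ
  | (Sum.inl (c, r), b) => 2 * (r.val * N + c.val) + (cond b 1 0)
  | (Sum.inr (c, r), b) => 2 * (N * (M + 1) + (r.val * (N + 1) + c.val)) + (cond b 1 0)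

def decL (N M : ℕ) [NeZero N] (l : ℕ) : Ed N M × Bool :=
  (if l / 2 < N * (M + 1) then Sum.inl (Fin.ofNat N (l / 2), Fin.ofNat (M + 1) (l / 2 / N))
   else Sum.inr (Fin.ofNat (N + 1) (l / 2 - N * (M + 1)),
      Fin.ofNat (M + 1) ((l / 2 - N * (M + 1)) / (N + 1))), Nat.beq (l % 2) 1)

theorem decL_encL (a : Ed N M × Bool) : decL N M (encL a) = a := by
  obtain ⟨⟨c, r⟩ | ⟨c, r⟩, b⟩ := a
  · have h1 : (2 * (r.val * N + c.val) + (cond b 1 0)) / 2 = r.val * N + c.val := by
      cases b <;> simp only [cond_true, cond_false] <;> omega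
    have h2 : Nat.beq ((2 * (r.val * N + c.val) + (cond b 1 0)) % 2) 1 = b := by
      cases b <;> simp only [cond_true, cond_false, Nat.mul_add_mod_self_left] <;> rfl
    have h3 : r.val * N + c.val < N * (M + 1) := by
      have h4 : r.val * N + N ≤ N * (M + 1) := by
        calc r.val * N + N = (r.val + 1) * N := by ring
          _ ≤ (M + 1) * N := Nat.mul_le_mul_right N (by omega)
          _ = N * (M + 1) := by ring
      omega
    simp only [encL, decL, h1, h2]
    rw [if_pos h3]
    have hN : 0 < N := Nat.pos_of_ne_zero (NeZero.ne N)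
    have h5 : Fin.ofNat N (r.val * N + c.val) = c := by
      apply Fin.ext
      rw [Fin.val_ofNat, Nat.mul_comm, Nat.mul_add_mod, Nat.mod_eq_of_lt c.2]
    have h6 : (r.val * N + c.val) / N = r.val := by
      rw [Nat.mul_comm, Nat.mul_add_div hN, Nat.div_eq_of_lt c.2, add_zero]
    have h7 : Fin.ofNat (M + 1) ((r.val * N + c.val) / N) = r := by
      apply Fin.ext
      rw [Fin.val_ofNat, h6, Nat.mod_eq_of_lt r.2]
    rw [h5, h7]
  · have h1 : (2 * (N * (M + 1) + (r.val * (N + 1) + c.val)) + (cond b 1 0)) / 2 =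
        N * (M + 1) + (r.val * (N + 1) + c.val) := by
      cases b <;> simp only [cond_true, cond_false] <;> omega
    have h2 : Nat.beq ((2 * (N * (M + 1) + (r.val * (N + 1) + c.val)) + (cond b 1 0)) % 2) 1 =
        b := by
      cases b <;> simp only [cond_true, cond_false, Nat.mul_add_mod_self_left] <;> rfl
    have h3 : ¬ (N * (M + 1) + (r.val * (N + 1) + c.val) < N * (M + 1)) := by omega
    have h4 : N * (M + 1) + (r.val * (N + 1) + c.val) - N * (M + 1) =
        r.val * (N + 1) + c.val := by omega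
    simp only [encL, decL, h1, h2]
    rw [if_neg h3, h4]
    have h5 : Fin.ofNat (N + 1) (r.val * (N + 1) + c.val) = c := by
      apply Fin.ext
      rw [Fin.val_ofNat, Nat.mul_comm, Nat.mul_add_mod, Nat.mod_eq_of_lt c.2]
    have h6 : (r.val * (N + 1) + c.val) / (N + 1) = r.val := by
      rw [Nat.mul_comm, Nat.mul_add_div (Nat.succ_pos N), Nat.div_eq_of_lt c.2, add_zero]
    have h7 : Fin.ofNat (M + 1) ((r.val * (N + 1) + c.val) / (N + 1)) = r := by
      apply Fin.ext
      rw [Fin.val_ofNat, h6, Nat.mod_eq_of_lt r.2]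
    rw [h5, h7]

def vcode : Vt N M k → ℕ
  | Sum.inl (c, r) => 2 * (r.val * (N + 1) + c.val)
  | Sum.inr l => 2 * l.val + 1

omit [NeZero N] in
theorem vcode_inj {u v : Vt N M k} (h : vcode u = vcode v) : u = v := by
  rcases u with ⟨c, r⟩ | l <;> rcases v with ⟨c', r'⟩ | l'
  · simp only [vcode] at h
    have h1 : r.val * (N + 1) + c.val = r'.val * (N + 1) + c'.val := by omega
    have h2 : c.val = c'.val := by
      have e1 : (r.val * (N + 1) + c.val) % (N + 1) = c.val := by
        rw [Nat.mul_comm, Nat.mul_add_mod, Nat.mod_eq_of_lt c.2]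
      have e2 : (r'.val * (N + 1) + c'.val) % (N + 1) = c'.val := by
        rw [Nat.mul_comm, Nat.mul_add_mod, Nat.mod_eq_of_lt c'.2]
      rw [← e1, ← e2, h1]
    have h3 : r.val = r'.val := by
      have e1 : (r.val * (N + 1) + c.val) / (N + 1) = r.val := by
        rw [Nat.mul_comm, Nat.mul_add_div (Nat.succ_pos N), Nat.div_eq_of_lt c.2, add_zero]
      have e2 : (r'.val * (N + 1) + c'.val) / (N + 1) = r'.val := by
        rw [Nat.mul_comm, Nat.mul_add_div (Nat.succ_pos N), Nat.div_eq_of_lt c'.2, add_zero]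
      rw [← e1, ← e2, h1]
    rw [Fin.ext h2, Fin.ext h3]
  · simp only [vcode] at h; omega
  · simp only [vcode] at h; omega
  · simp only [vcode] at h
    rw [Fin.ext (by omega : l.val = l'.val)]

/-- tables describing a drawing; a dart of the drawing is coded by `2 * edge + direction` -/
structure Tab where
  En : ℕ
  ROT : ℕ
  ROTI : ℕ
  LAB : ℕ
  POS : ℕ
  START : ℕ
  BASE : ℕ
  Vn : ℕ
  VLAB : ℕ
  VREP : ℕ
  Fn : ℕ
  FACE : ℕ
  FREP : ℕ
  MU : ℕ

/-- number of the vertex, for the table of base darts -/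
def vnum : Vt N M k → ℕ
  | Sum.inl (c, r) => r.val * (N + 1) + c.val
  | Sum.inr l => (N + 1) * (M + 1) + l.val

namespace Tab

variable (t : Tab)

def enc (d : Fin t.En × Bool) : ℕ := 2 * d.1.val + cond d.2 1 0

/-- the darts of the drawing -/
def dec [NeZero t.En] (c : ℕ) : Fin t.En × Bool := (Fin.ofNat t.En (c / 2), Nat.beq (c % 2) 1)

theorem enc_lt (d : Fin t.En × Bool) : t.enc d < 2 * t.En := by
  obtain ⟨e, b⟩ := d
  have := e.2
  cases b <;> simp only [enc, cond_true, cond_false] <;> omega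

theorem dec_enc [NeZero t.En] (d : Fin t.En × Bool) : t.dec (t.enc d) = d := by
  obtain ⟨e, b⟩ := d
  have h1 : (2 * e.val + cond b 1 0) / 2 = e.val := by
    cases b <;> simp only [cond_true, cond_false] <;> omega
  have h2 : Nat.beq ((2 * e.val + cond b 1 0) % 2) 1 = b := by
    cases b <;> simp only [cond_true, cond_false, Nat.mul_add_mod_self_left] <;> rfl
  simp only [enc, dec, h1, h2]
  congr 1
  apply Fin.ext
  rw [Fin.val_ofNat, Nat.mod_eq_of_lt e.2]

theorem enc_dec [NeZero t.En] {c : ℕ} (h : c < 2 * t.En) : t.enc (t.dec c) = c := by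
  have h1 : (Fin.ofNat t.En (c / 2)).val = c / 2 := by
    rw [Fin.val_ofNat, Nat.mod_eq_of_lt (by omega)]
  simp only [enc, dec, h1]
  rcases Nat.mod_two_eq_zero_or_one c with h2 | h2
  · rw [h2]
    have : Nat.beq 0 1 = false := rfl
    rw [this, cond_false]; omega
  · rw [h2]
    have : Nat.beq 1 1 = true := rfl
    rw [this, cond_true]; omega

/-- other direction -/
def oth (c : ℕ) : ℕ := Nat.xor c 1

theorem oth_eq (c : ℕ) : oth c = cond (Nat.beq (c % 2) 1) (c - 1) (c + 1) := by
  have h0 : oth c = c ^^^ 1 := rfl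
  rw [h0]
  rcases Nat.mod_two_eq_zero_or_one c with h2 | h2
  · rw [h2]
    have : Nat.beq 0 1 = false := rfl
    rw [this, cond_false]
    apply Nat.eq_of_testBit_eq
    intro i
    rw [Nat.testBit_xor]
    cases i with
    | zero =>
      rw [Nat.testBit_zero, Nat.testBit_zero, Nat.testBit_zero]
      have h3 : (c + 1) % 2 = 1 := by omega
      rw [h2, h3]; rfl
    | succ i =>
      rw [Nat.testBit_succ, Nat.testBit_succ, Nat.testBit_succ]
      have h3 : (c + 1) / 2 = c / 2 := by omega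
      rw [h3]
      simp
  · rw [h2]
    have : Nat.beq 1 1 = true := rfl
    rw [this, cond_true]
    apply Nat.eq_of_testBit_eq
    intro i
    rw [Nat.testBit_xor]
    cases i with
    | zero =>
      rw [Nat.testBit_zero, Nat.testBit_zero, Nat.testBit_zero]
      have h3 : (c - 1) % 2 = 0 := by omega
      rw [h2, h3]; rfl
    | succ i =>
      rw [Nat.testBit_succ, Nat.testBit_succ, Nat.testBit_succ]
      have h3 : (c - 1) / 2 = c / 2 := by omega
      rw [h3]
      simp

theorem enc_flip (d : Fin t.En × Bool) : t.enc (flip d) = oth (t.enc d) := by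
  obtain ⟨e, b⟩ := d
  rw [oth_eq]
  cases b
  · have h1 : t.enc (e, false) = 2 * e.val := rfl
    have h2 : t.enc (flip (e, false)) = 2 * e.val + 1 := rfl
    have h3 : Nat.beq ((2 * e.val) % 2) 1 = false := by
      rw [Nat.mul_mod_right]; rfl
    rw [h1, h2, h3, cond_false]
  · have h1 : t.enc (e, true) = 2 * e.val + 1 := rfl
    have h2 : t.enc (flip (e, true)) = 2 * e.val := rfl
    have h3 : Nat.beq ((2 * e.val + 1) % 2) 1 = true := by
      have : (2 * e.val + 1) % 2 = 1 := by omega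
      rw [this]; rfl
    rw [h1, h2, h3, cond_true]; rfl

def bnd (b1 b2 : Bool) : Bool := cond b1 b2 false

theorem bnd_spec {b1 b2 : Bool} (h : bnd b1 b2 = true) : b1 = true ∧ b2 = true := by
  cases b1 <;> cases b2 <;> first | exact ⟨rfl, rfl⟩ | exact absurd h (by decide)

/-- permutation checks -/
def chk1 (t : Tab) (c : ℕ) : Bool :=
  bnd (Nat.blt (get t.ROT c) (2 * t.En)) (bnd (Nat.blt (get t.ROTI c) (2 * t.En))
    (bnd (Nat.beq (get t.ROTI (get t.ROT c)) c) (Nat.beq (get t.ROT (get t.ROTI c)) c)))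

/-- label checks -/
def chk2 (N M : ℕ) [NeZero N] (t : Tab) (c : ℕ) : Bool :=
  bnd (Nat.blt (get t.LAB c) (2 * (N * (M + 1) + (N + 1) * (M + 1))))
    (bnd (Nat.beq (get t.LAB (oth c)) (oth (get t.LAB c)))
    (cond (Nat.beq (get t.POS c) 0) (Nat.beq (get t.START (get t.LAB c)) c) true))

/-- checks of the label codes -/
def chk3 (N M : ℕ) [NeZero N] (t : Tab) (l : ℕ) : Bool :=
  bnd (Nat.beq (encL (decL N M l)) l) (bnd (Nat.beq (encL (flip (decL N M l))) (oth l))
    (bnd (Nat.blt (get t.START l) (2 * t.En))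
    (bnd (Nat.beq (get t.LAB (get t.START l)) l) (Nat.beq (get t.POS (get t.START l)) 0))))

/-- vertex checks -/
def chk4 (w : Fin (N + 1) → Fin k) (M : ℕ) (t : Tab) (c : ℕ) : Bool :=
  cond (Nat.beq (get t.POS c) 0)
    (bnd (Nat.beq (get t.POS (get t.ROT c)) 0)
      (bnd (Nat.beq (vcode (tail w (decL N M (get t.LAB (get t.ROT c)))))
        (vcode (tail w (decL N M (get t.LAB c)))))
      ((fun b => bnd (Nat.blt b (2 * t.En)) (cond (Nat.beq b c) true
        (cond (Nat.beq (get t.ROT b) c) true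
        (cond (Nat.beq (get t.ROT (get t.ROT b)) c) true
          (Nat.beq (get t.ROT (get t.ROT (get t.ROT b))) c)))))
        (get t.BASE (vnum (tail w (decL N M (get t.LAB c))))))))
    (bnd (Nat.blt 0 (get t.POS (get t.ROT c)))
      (bnd (Nat.beq (get t.ROT (get t.ROT (get t.ROT (get t.ROT c)))) c)
      (bnd (Nat.beq (get t.LAB (oth (get t.ROT (get t.ROT c)))) (get t.LAB c))
      (bnd (Nat.beq (get t.POS (oth (get t.ROT (get t.ROT c))) + 1) (get t.POS c))
      (bnd (Bool.not (Nat.beq (get t.LAB (get t.ROT c)) (get t.LAB c)))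
        (Bool.not (Nat.beq (get t.LAB (get t.ROT c)) (oth (get t.LAB c)))))))))

/-- connectivity check -/
def chk5 (t : Tab) (e : ℕ) : Bool :=
  cond (Nat.beq e 0) true (cond (Nat.blt (get t.ROT (2 * e)) (2 * e)) true
    (cond (Nat.blt (get t.ROTI (2 * e)) (2 * e)) true
    (cond (Nat.blt (get t.ROT (2 * e + 1)) (2 * e)) true
      (Nat.blt (get t.ROTI (2 * e + 1)) (2 * e)))))

/-- orbit label checks -/
def chk6 (t : Tab) (c : ℕ) : Bool :=
  bnd (Nat.beq (get t.VLAB (get t.ROT c)) (get t.VLAB c))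
    (Nat.beq (get t.FACE (get t.ROT (oth c))) (get t.FACE c))

def chk7 (t : Tab) (v : ℕ) : Bool :=
  bnd (Nat.blt (get t.VREP v) (2 * t.En)) (Nat.beq (get t.VLAB (get t.VREP v)) v)

def chk8 (t : Tab) (v : ℕ) : Bool :=
  bnd (Nat.blt (get t.FREP v) (2 * t.En)) (Nat.beq (get t.FACE (get t.FREP v)) v)

end Tab

/-- a table that passes all the checks -/
structure GoodTab (N M k : ℕ) [NeZero N] (w : Fin (N + 1) → Fin k) (t : Tab) : Prop where
  pos : 0 < t.En
  c1 : allB (2 * t.En) t.chk1 = true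
  c2 : allB (2 * t.En) (t.chk2 N M) = true
  c3 : allB (2 * (N * (M + 1) + (N + 1) * (M + 1))) (t.chk3 N M) = true
  c4 : allB (2 * t.En) (t.chk4 w M) = true
  c5 : allB t.En t.chk5 = true
  c6 : allB (2 * t.En) t.chk6 = true
  c7 : allB t.Vn t.chk7 = true
  c8 : allB t.Fn t.chk8 = true

end Pool.Agent.KS6_63.HT
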