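import Mathlib
import Pool.Agent.KS6_63.HT.Pos

/-! # The drawing given by a table that passes the checks -/

namespace Pool.Agent.KS6_63.HT

open Equiv Module

variable {N M k : ℕ} [NeZero N]

namespace GoodTab

variable {w : Fin (N + 1) → Fin k} {t : Tab}

theorem blt_eq {a b : ℕ} (h : Nat.blt a b = true) : a < b := by
  rw [Nat.blt, Nat.ble_eq] at h; exact h

theorem beq_eq {a b : ℕ} (h : Nat.beq a b = true) : a = b := Nat.eq_of_beq_eq_true h

theorem beq_false {a b : ℕ} (h : Nat.beq a b = false) : a ≠ b := Nat.ne_of_beq_eq_false h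

theorem s1 (h : GoodTab N M k w t) {c : ℕ} (hc : c < 2 * t.En) : get t.ROT c < 2 * t.En ∧
    get t.ROTI c < 2 * t.En ∧ get t.ROTI (get t.ROT c) = c ∧ get t.ROT (get t.ROTI c) = c := by
  have h1 := allB_spec h.c1 c hc
  obtain ⟨a1, h2⟩ := Tab.bnd_spec h1
  obtain ⟨a2, h3⟩ := Tab.bnd_spec h2
  obtain ⟨a3, a4⟩ := Tab.bnd_spec h3
  exact ⟨blt_eq a1, blt_eq a2, beq_eq a3, beq_eq a4⟩

theorem s2 (h : GoodTab N M k w t) {c : ℕ} (hc : c < 2 * t.En) :
    get t.LAB c < 2 * (N * (M + 1) + (N + 1) * (M + 1)) ∧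
    get t.LAB (Tab.oth c) = Tab.oth (get t.LAB c) ∧
    (get t.POS c = 0 → get t.START (get t.LAB c) = c) := by
  have h1 := allB_spec h.c2 c hc
  obtain ⟨a1, h2⟩ := Tab.bnd_spec h1
  obtain ⟨a2, a3⟩ := Tab.bnd_spec h2
  refine ⟨blt_eq a1, beq_eq a2, ?_⟩
  intro hp
  rw [hp] at a3
  exact beq_eq a3

theorem s3 (h : GoodTab N M k w t) {l : ℕ} (hl : l < 2 * (N * (M + 1) + (N + 1) * (M + 1))) :
    encL (decL N M l) = l ∧ encL (flip (decL N M l)) = Tab.oth l ∧
    get t.START l < 2 * t.En ∧ get t.LAB (get t.START l) = l ∧ get t.POS (get t.START l) = 0 := by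
  have h1 := allB_spec h.c3 l hl
  obtain ⟨a1, h2⟩ := Tab.bnd_spec h1
  obtain ⟨a2, h3⟩ := Tab.bnd_spec h2
  obtain ⟨a3, h4⟩ := Tab.bnd_spec h3
  obtain ⟨a4, a5⟩ := Tab.bnd_spec h4
  exact ⟨beq_eq a1, beq_eq a2, blt_eq a3, beq_eq a4, beq_eq a5⟩

theorem s4a (h : GoodTab N M k w t) {c : ℕ} (hc : c < 2 * t.En) (hp : get t.POS c = 0) :
    get t.POS (get t.ROT c) = 0 ∧
    tail w (decL N M (get t.LAB (get t.ROT c))) = tail w (decL N M (get t.LAB c)) ∧
    get t.BASE (vnum (tail w (decL N M (get t.LAB c)))) < 2 * t.En ∧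
    ∃ n : ℕ, ((get t.ROT)^[n]) (get t.BASE (vnum (tail w (decL N M (get t.LAB c))))) = c := by
  have h1 := allB_spec h.c4 c hc
  rw [Tab.chk4, hp] at h1
  obtain ⟨a1, h2⟩ := Tab.bnd_spec h1
  obtain ⟨a2, h3⟩ := Tab.bnd_spec h2
  obtain ⟨a3, h4⟩ := Tab.bnd_spec h3
  refine ⟨beq_eq a1, vcode_inj (beq_eq a2), blt_eq a3, ?_⟩
  set b := get t.BASE (vnum (tail w (decL N M (get t.LAB c)))) with hb
  cases e0 : Nat.beq b c
  · rw [e0, cond_false] at h4
    cases e1 : Nat.beq (get t.ROT b) c
    · rw [e1, cond_false] at h4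
      cases e2 : Nat.beq (get t.ROT (get t.ROT b)) c
      · rw [e2, cond_false] at h4
        exact ⟨3, beq_eq h4⟩
      · exact ⟨2, beq_eq e2⟩
    · exact ⟨1, beq_eq e1⟩
  · exact ⟨0, beq_eq e0⟩

theorem s4b (h : GoodTab N M k w t) {c : ℕ} (hc : c < 2 * t.En) (hp : 0 < get t.POS c) :
    0 < get t.POS (get t.ROT c) ∧
    get t.ROT (get t.ROT (get t.ROT (get t.ROT c))) = c ∧
    get t.LAB (Tab.oth (get t.ROT (get t.ROT c))) = get t.LAB c ∧
    get t.POS (Tab.oth (get t.ROT (get t.ROT c))) + 1 = get t.POS c ∧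
    get t.LAB (get t.ROT c) ≠ get t.LAB c ∧
    get t.LAB (get t.ROT c) ≠ Tab.oth (get t.LAB c) := by
  have h1 := allB_spec h.c4 c hc
  have hb : Nat.beq (get t.POS c) 0 = false := by
    cases e : Nat.beq (get t.POS c) 0
    · rfl
    · have := beq_eq e; omega
  rw [Tab.chk4, hb] at h1
  obtain ⟨a1, h2⟩ := Tab.bnd_spec h1
  obtain ⟨a2, h3⟩ := Tab.bnd_spec h2
  obtain ⟨a3, h4⟩ := Tab.bnd_spec h3
  obtain ⟨a4, h5⟩ := Tab.bnd_spec h4
  obtain ⟨a5, a6⟩ := Tab.bnd_spec h5
  refine ⟨blt_eq a1, beq_eq a2, beq_eq a3, beq_eq a4, ?_, ?_⟩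
  · apply beq_false
    cases e : Nat.beq (get t.LAB (get t.ROT c)) (get t.LAB c)
    · rfl
    · rw [e] at a5; exact absurd a5 (by decide)
  · apply beq_false
    cases e : Nat.beq (get t.LAB (get t.ROT c)) (Tab.oth (get t.LAB c))
    · rfl
    · rw [e] at a6; exact absurd a6 (by decide)

theorem s5 (h : GoodTab N M k w t) {e : ℕ} (he : e < t.En) (h0 : 0 < e) :
    get t.ROT (2 * e) < 2 * e ∨ get t.ROTI (2 * e) < 2 * e ∨ get t.ROT (2 * e + 1) < 2 * e ∨
      get t.ROTI (2 * e + 1) < 2 * e := by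
  have h1 := allB_spec h.c5 e he
  have hb : Nat.beq e 0 = false := by
    cases e' : Nat.beq e 0
    · rfl
    · have := beq_eq e'; omega
  rw [Tab.chk5, hb, cond_false] at h1
  cases e0 : Nat.blt (get t.ROT (2 * e)) (2 * e)
  · rw [e0, cond_false] at h1
    cases e1 : Nat.blt (get t.ROTI (2 * e)) (2 * e)
    · rw [e1, cond_false] at h1
      cases e2 : Nat.blt (get t.ROT (2 * e + 1)) (2 * e)
      · rw [e2, cond_false] at h1
        exact Or.inr (Or.inr (Or.inr (blt_eq h1)))
      · exact Or.inr (Or.inr (Or.inl (blt_eq e2)))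
    · exact Or.inr (Or.inl (blt_eq e1))
  · exact Or.inl (blt_eq e0)

theorem s6 (h : GoodTab N M k w t) {c : ℕ} (hc : c < 2 * t.En) :
    get t.VLAB (get t.ROT c) = get t.VLAB c ∧
    get t.FACE (get t.ROT (Tab.oth c)) = get t.FACE c := by
  have h1 := allB_spec h.c6 c hc
  obtain ⟨a1, a2⟩ := Tab.bnd_spec h1
  exact ⟨beq_eq a1, beq_eq a2⟩

end GoodTab

section build

variable {w : Fin (N + 1) → Fin k} {t : Tab} (h : GoodTab N M k w t)

include h in
theorem GoodTab.ne : NeZero t.En := ⟨by have := h.pos; omega⟩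

/-- the rotation given by the table -/
def rotP : Perm (Fin t.En × Bool) :=
  have := h.ne
  { toFun := fun d => t.dec (get t.ROT (t.enc d))
    invFun := fun d => t.dec (get t.ROTI (t.enc d))
    left_inv := by
      intro d
      have h1 := h.s1 (t.enc_lt d)
      change t.dec (get t.ROTI (t.enc (t.dec (get t.ROT (t.enc d))))) = d
      rw [t.enc_dec h1.1, h1.2.2.1, t.dec_enc]
    right_inv := by
      intro d
      have h1 := h.s1 (t.enc_lt d)
      change t.dec (get t.ROT (t.enc (t.dec (get t.ROTI (t.enc d))))) = d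
      rw [t.enc_dec h1.2.1, h1.2.2.2, t.dec_enc] }

theorem enc_rotP (d : Fin t.En × Bool) : t.enc (rotP h d) = get t.ROT (t.enc d) := by
  have := h.ne
  exact t.enc_dec (h.s1 (t.enc_lt d)).1

theorem enc_rotP_inv (d : Fin t.En × Bool) : t.enc ((rotP h)⁻¹ d) = get t.ROTI (t.enc d) := by
  have := h.ne
  exact t.enc_dec (h.s1 (t.enc_lt d)).2.1

theorem enc_inj {d d' : Fin t.En × Bool} (hp : 0 < t.En) (he : t.enc d = t.enc d') : d = d' := by
  have : NeZero t.En := ⟨by omega⟩
  rw [← t.dec_enc d, he, t.dec_enc]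

/-- the label of a dart -/
def labP (d : Fin t.En × Bool) : Ed N M × Bool := decL N M (get t.LAB (t.enc d))

include h in
theorem encL_labP (d : Fin t.En × Bool) :
    encL (labP (N := N) (M := M) d) = get t.LAB (t.enc d) :=
  (h.s3 (h.s2 (t.enc_lt d)).1).1

theorem encL_inj {a b : Ed N M × Bool} (hab : encL a = encL b) : a = b := by
  rw [← decL_encL a, hab, decL_encL]

include h in
theorem labP_flip (d : Fin t.En × Bool) :
    (labP (flip d) : Ed N M × Bool) = flip (labP d) := by
  apply encL_inj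
  rw [encL_labP h, t.enc_flip, (h.s2 (t.enc_lt d)).2.1]
  exact ((h.s3 (h.s2 (t.enc_lt d)).1).2.1).symm

omit [NeZero N] in
theorem ends_ext {a b : Ed N M × Bool} (h1 : tail w a = tail w b)
    (h2 : tail w (flip a) = tail w (flip b)) : a = b := ends_inj w h1 h2

theorem perm_closed {A : Type} [Finite A] (σ : Perm A) (s : Set A) (hs : ∀ a ∈ s, σ a ∈ s) :
    ∀ a ∈ s, σ⁻¹ a ∈ s := by
  have hp : ∀ (n : ℕ), ∀ a ∈ s, (σ ^ n) a ∈ s := by
    intro n
    induction n with
    | zero => intro a ha; exact ha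
    | succ n ih => intro a ha; rw [pow_succ', Perm.mul_apply]; exact hs _ (ih a ha)
  intro a ha
  have hf : IsOfFinOrder σ := isOfFinOrder_of_finite σ
  obtain ⟨n, hn0, hn⟩ := hf.exists_pow_eq_one
  have h1 : σ⁻¹ = σ ^ (n - 1) := by
    rw [inv_eq_iff_mul_eq_one, ← pow_succ']
    rwa [Nat.sub_add_cancel hn0]
  rw [h1]
  exact hp _ a ha

/-- the drawing given by the table -/
def tabDrawing : Drawing (gridGraph M w) where
  D := Fin t.En × Bool
  fin := inferInstance
  rot := rotP h
  rev := flip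
  rev_rev := by intro d; simp
  rev_ne := by
    intro d hd
    have := congrArg Prod.snd hd
    simp at this
  conn := by
    intro s hs hcl
    have hinv : ∀ d ∈ s, (rotP h)⁻¹ d ∈ s := perm_closed (rotP h) s (fun d hd => (hcl d hd).1)
    have ei : ∀ d, (rotP h)⁻¹ (rotP h d) = d := fun d => (rotP h).symm_apply_apply d
    have ie : ∀ d, rotP h ((rotP h)⁻¹ d) = d := fun d => (rotP h).apply_symm_apply d
    have hflip : ∀ d, flip d ∈ s ↔ d ∈ s := by
      intro d
      constructor
      · intro hd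
        have := (hcl _ hd).2
        simpa using this
      · intro hd
        exact (hcl _ hd).2
    have hrot : ∀ d, rotP h d ∈ s ↔ d ∈ s := by
      intro d
      constructor
      · intro hd
        have := hinv _ hd
        rwa [ei] at this
      · intro hd
        exact (hcl _ hd).1
    have hroti : ∀ d, (rotP h)⁻¹ d ∈ s ↔ d ∈ s := by
      intro d
      constructor
      · intro hd
        have := (hcl _ hd).1
        rwa [ie] at this
      · intro hd
        exact hinv _ hd
    have hp := h.pos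
    have hb : ∀ (e : Fin t.En) (b : Bool), (e, b) ∈ s ↔ (e, false) ∈ s := by
      intro e b
      cases b
      · exact Iff.rfl
      · have := hflip (e, false)
        simpa using this
    have main : ∀ n (hn : n < t.En), ((⟨n, hn⟩ : Fin t.En), false) ∈ s ↔
        ((⟨0, hp⟩ : Fin t.En), false) ∈ s := by
      intro n
      induction n using Nat.strong_induction_on with
      | _ n ih =>
        intro hn
        rcases Nat.eq_zero_or_pos n with h0 | h0
        · subst h0; exact Iff.rfl
        · have key : ∀ d : Fin t.En × Bool, t.enc d < 2 * n → (d ∈ s ↔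
              ((⟨0, hp⟩ : Fin t.En), false) ∈ s) := by
            rintro ⟨⟨e, he⟩, b⟩ hlt
            have he' : e < n := by
              cases b <;> simp only [Tab.enc, cond_true, cond_false] at hlt <;> omega
            rw [hb]
            exact ih e he' he
          have ef : t.enc ((⟨n, hn⟩ : Fin t.En), false) = 2 * n := rfl
          have et : t.enc ((⟨n, hn⟩ : Fin t.En), true) = 2 * n + 1 := rfl
          rcases h.s5 hn h0 with h1 | h1 | h1 | h1
          · rw [← hrot]
            apply key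
            rw [enc_rotP, ef]; exact h1
          · rw [← hroti]
            apply key
            rw [enc_rotP_inv, ef]; exact h1
          · rw [← hb _ true, ← hrot]
            apply key
            rw [enc_rotP, et]; exact h1
          · rw [← hb _ true, ← hroti]
            apply key
            rw [enc_rotP_inv, et]; exact h1
    obtain ⟨⟨⟨e0, he0⟩, b0⟩, hd0⟩ := hs
    have h0 := (main e0 he0).mp ((hb _ b0).mp hd0)
    ext ⟨⟨e, he⟩, b⟩
    simp only [Set.mem_univ, iff_true]
    exact (hb _ b).mpr ((main e he).mpr h0)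
  src d := tail w (labP d)
  tgt d := tail w (flip (labP d))
  pos d := get t.POS (t.enc d)
  adj := by intro d; exact ⟨labP d, rfl, rfl⟩
  src_rev := by intro d; rw [labP_flip h]
  start := by
    have := h.ne
    rintro u v ⟨a, rfl, rfl⟩
    have hla : encL a < 2 * (N * (M + 1) + (N + 1) * (M + 1)) := by
      obtain ⟨⟨c, r⟩ | ⟨c, r⟩, b⟩ := a
      · have h4 : r.val * N + N ≤ N * (M + 1) := by
          calc r.val * N + N = (r.val + 1) * N := by ring
            _ ≤ (M + 1) * N := Nat.mul_le_mul_right N (by omega)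
            _ = N * (M + 1) := by ring
        have := c.2
        cases b <;> simp only [encL, cond_true, cond_false] <;> omega
      · have h4 : r.val * (N + 1) + (N + 1) ≤ (N + 1) * (M + 1) := by
          calc r.val * (N + 1) + (N + 1) = (r.val + 1) * (N + 1) := by ring
            _ ≤ (M + 1) * (N + 1) := Nat.mul_le_mul_right (N + 1) (by omega)
            _ = (N + 1) * (M + 1) := by ring
        have := c.2
        cases b <;> simp only [encL, cond_true, cond_false] <;> omega
    have h3 := h.s3 hla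
    refine ⟨t.dec (get t.START (encL a)), ⟨?_, ?_, ?_⟩, ?_⟩
    · simp only [labP]
      rw [t.enc_dec h3.2.2.1, h3.2.2.2.1, decL_encL]
    · simp only [labP]
      rw [t.enc_dec h3.2.2.1, h3.2.2.2.1, decL_encL]
    · change get t.POS (t.enc (t.dec (get t.START (encL a)))) = 0
      rw [t.enc_dec h3.2.2.1, h3.2.2.2.2]
    · rintro d ⟨h4, h5, h6⟩
      have h7 : labP d = a := ends_inj w h4 h5
      have h8 := (h.s2 (t.enc_lt d)).2.2 h6
      rw [← encL_labP h d, h7] at h8
      rw [h8, t.dec_enc]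
  vertex := by
    intro d hd
    have h4 := h.s4a (t.enc_lt d) hd
    constructor
    · rw [enc_rotP]; exact h4.1
    · simp only [labP]
      rw [enc_rotP]; exact h4.2.1
  vertex_cyclic := by
    have := h.ne
    have key : ∀ d : Fin t.En × Bool, get t.POS (t.enc d) = 0 →
        (rotP h).SameCycle (t.dec (get t.BASE (vnum (tail w (labP (M := M) d))))) d := by
      intro d hd
      have h4 := h.s4a (t.enc_lt d) hd
      obtain ⟨n, hn⟩ := h4.2.2.2
      have hit : ∀ (m : ℕ) (c : ℕ), c < 2 * t.En →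
          t.enc (((rotP h) ^ m) (t.dec c)) = ((get t.ROT)^[m]) c := by
        intro m
        induction m with
        | zero => intro c hc; exact t.enc_dec hc
        | succ m ih =>
          intro c hc
          rw [pow_succ', Perm.mul_apply, enc_rotP, ih c hc, Function.iterate_succ_apply']
      refine ⟨(n : ℤ), ?_⟩
      apply enc_inj h.pos
      rw [zpow_natCast]
      exact (hit n _ h4.2.2.1).trans hn
    intro d d' hd hd' hsrc
    have h1 := key d hd
    have h2 := key d' hd'
    rw [← hsrc] at h2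
    exact h1.symm.trans h2
  cross := by
    intro d hd
    have h4 := h.s4b (t.enc_lt d) hd
    constructor
    · rw [enc_rotP]; exact h4.1
    · apply enc_inj h.pos
      rw [enc_rotP, enc_rotP, enc_rotP, enc_rotP]; exact h4.2.1
  cross_prev := by
    intro d hd
    have h4 := h.s4b (t.enc_lt d) hd
    have h5 : labP (flip (rotP h (rotP h d))) = (labP d : Ed N M × Bool) := by
      apply encL_inj
      rw [encL_labP h, encL_labP h, t.enc_flip, enc_rotP, enc_rotP]
      exact h4.2.2.1
    rw [h5]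
    refine ⟨rfl, rfl, ?_⟩
    rw [t.enc_flip, enc_rotP, enc_rotP]
    exact h4.2.2.2.1
  cross_ne := by
    intro d hd
    have h4 := h.s4b (t.enc_lt d) hd
    constructor
    · rintro ⟨h5, h6⟩
      have h7 : (labP (rotP h d) : Ed N M × Bool) = labP d := ends_inj w h5 h6
      have h8 := congrArg encL h7
      rw [encL_labP h, encL_labP h, enc_rotP] at h8
      exact h4.2.2.2.2.1 h8
    · rintro ⟨h5, h6⟩
      have h7 : (labP (rotP h d) : Ed N M × Bool) = flip (labP d) :=
        ends_inj w h5 (by rw [h6]; simp)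
      rw [← labP_flip h] at h7
      have h8 := congrArg encL h7
      rw [encL_labP h, encL_labP h, enc_rotP, t.enc_flip, (h.s2 (t.enc_lt d)).2.1] at h8
      exact h4.2.2.2.2.2 h8

end build

end Pool.Agent.KS6_63.HT
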