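import Mathlib
import Pool.Agent.KS6_63.HT.Pos2

/-! # Euler characteristic and crossings of the drawing given by a table -/

namespace Pool.Agent.KS6_63.HT

open Equiv Module

variable {N M k : ℕ} [NeZero N] {w : Fin (N + 1) → Fin k} {t : Tab} (h : GoodTab N M k w t)

theorem tab_euler (hV : 0 < t.Vn) (hF : 0 < t.Fn) :
    (t.Vn : ℤ) - t.En + t.Fn ≤ (tabDrawing h).euler := by
  have := h.ne
  have nV : NeZero t.Vn := ⟨by omega⟩
  have nF : NeZero t.Fn := ⟨by omega⟩
  have h1 : t.Vn ≤ numOrbits (rotP h) := by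
    have := le_numOrbits (rotP h) (fun d => Fin.ofNat t.Vn (get t.VLAB (t.enc d)))
      (by
        intro d
        rw [enc_rotP, (h.s6 (t.enc_lt d)).1])
      (by
        intro v
        have h7 := allB_spec h.c7 v.val v.2
        obtain ⟨a1, a2⟩ := Tab.bnd_spec h7
        refine ⟨t.dec (get t.VREP v.val), ?_⟩
        apply Fin.ext
        change get t.VLAB (t.enc (t.dec (get t.VREP v.val))) % t.Vn = v.val
        rw [t.enc_dec (GoodTab.blt_eq a1), GoodTab.beq_eq a2, Nat.mod_eq_of_lt v.2])
    simpa using this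
  have h2 : t.Fn ≤ numOrbits (rotP h * flip) := by
    have := le_numOrbits (rotP h * flip) (fun d => Fin.ofNat t.Fn (get t.FACE (t.enc d)))
      (by
        intro d
        rw [Perm.mul_apply, enc_rotP, t.enc_flip, (h.s6 (t.enc_lt d)).2])
      (by
        intro v
        have h7 := allB_spec h.c8 v.val v.2
        obtain ⟨a1, a2⟩ := Tab.bnd_spec h7
        refine ⟨t.dec (get t.FREP v.val), ?_⟩
        apply Fin.ext
        change get t.FACE (t.enc (t.dec (get t.FREP v.val))) % t.Fn = v.val
        rw [t.enc_dec (GoodTab.blt_eq a1), GoodTab.beq_eq a2, Nat.mod_eq_of_lt v.2])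
    simpa using this
  have h3 : numOrbits (flip : Perm (Fin t.En × Bool)) ≤ t.En := by
    have : Nat.card (Quotient (Perm.SameCycle.setoid (flip : Perm (Fin t.En × Bool)))) ≤
        Nat.card (Fin t.En) := by
      refine Nat.card_le_card_of_surjective (fun e => Quotient.mk _ (e, false)) ?_
      intro q
      induction q using Quotient.ind with
      | _ d =>
        obtain ⟨e, b⟩ := d
        refine ⟨e, ?_⟩
        apply Quotient.sound
        cases b
        · exact Perm.SameCycle.refl _ _
        · exact ⟨1, by simp⟩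
    rw [show Nat.card (Fin t.En) = t.En by simp] at this
    exact this
  have h4 : (tabDrawing h).euler = (numOrbits (rotP h) : ℤ) -
      (numOrbits (flip : Perm (Fin t.En × Bool)) : ℤ) + (numOrbits (rotP h * flip) : ℤ) := rfl
  rw [h4]
  omega

/-- the two labels are edges without common end -/
def indB (w : Fin (N + 1) → Fin k) (M : ℕ) (l l' : ℕ) : Bool :=
  (fun a b a' b' => cond (Nat.beq a a') false (cond (Nat.beq a b') false
    (cond (Nat.beq b a') false (cond (Nat.beq b b') false true))))
    (vcode (tail w (decL N M l))) (vcode (tail w (flip (decL N M l))))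
    (vcode (tail w (decL N M l'))) (vcode (tail w (flip (decL N M l'))))

/-- check for algebraic crossing number zero -/
def chkA (w : Fin (N + 1) → Fin k) (M : ℕ) (t : Tab) (c : ℕ) : Bool :=
  cond (Nat.beq (get t.POS c) 0) true
    (cond (indB w M (get t.LAB c) (get t.LAB (get t.ROT c)))
      (Tab.bnd (Nat.blt (get t.MU c) (2 * t.En))
      (Tab.bnd (Nat.beq (get t.LAB (get t.MU c)) (get t.LAB c))
      (Tab.bnd (Nat.blt 0 (get t.POS (get t.MU c)))
      (Tab.bnd (Nat.beq (get t.LAB (get t.ROT (get t.MU c))) (Tab.oth (get t.LAB (get t.ROT c))))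
        (Nat.beq (get t.MU (get t.MU c)) c))))) true)

/-- check for even crossing numbers -/
def chkE (w : Fin (N + 1) → Fin k) (M : ℕ) (t : Tab) (c : ℕ) : Bool :=
  cond (Nat.beq (get t.POS c) 0) true
    (cond (indB w M (get t.LAB c) (get t.LAB (get t.ROT c)))
      (Tab.bnd (Nat.blt (get t.MU c) (2 * t.En))
      (Tab.bnd (Nat.beq (get t.LAB (get t.MU c)) (get t.LAB c))
      (Tab.bnd (Nat.blt 0 (get t.POS (get t.MU c)))
      (Tab.bnd (cond (Nat.beq (get t.LAB (get t.ROT (get t.MU c)))
          (Tab.oth (get t.LAB (get t.ROT c)))) true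
          (Nat.beq (get t.LAB (get t.ROT (get t.MU c))) (get t.LAB (get t.ROT c))))
      (Tab.bnd (Nat.beq (get t.MU (get t.MU c)) c) (Bool.not (Nat.beq (get t.MU c) c))))))) true)

theorem indB_true {a b : Ed N M × Bool}
    (hi : Indep (tail w a) (tail w (flip a)) (tail w b) (tail w (flip b))) :
    indB w M (encL a) (encL b) = true := by
  obtain ⟨h1, h2, h3, h4⟩ := hi
  have f : ∀ {x y : Vt N M k}, x ≠ y → Nat.beq (vcode x) (vcode y) = false := by
    intro x y hxy
    cases e : Nat.beq (vcode x) (vcode y)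
    · rfl
    · exact absurd (vcode_inj (GoodTab.beq_eq e)) hxy
  simp only [indB, decL_encL]
  rw [f h1, f h2, f h3, f h4]
  rfl

theorem mu_spec (hA : allB (2 * t.En) (chkA w M t) = true) {d : Fin t.En × Bool}
    {a b : Ed N M × Bool} (hpos : 0 < get t.POS (t.enc d))
    (ha : get t.LAB (t.enc d) = encL a) (hb : get t.LAB (get t.ROT (t.enc d)) = encL b)
    (hi : Indep (tail w a) (tail w (flip a)) (tail w b) (tail w (flip b))) :
    get t.MU (t.enc d) < 2 * t.En ∧
    get t.LAB (get t.MU (t.enc d)) = encL a ∧ 0 < get t.POS (get t.MU (t.enc d)) ∧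
    get t.LAB (get t.ROT (get t.MU (t.enc d))) = Tab.oth (encL b) ∧
    get t.MU (get t.MU (t.enc d)) = t.enc d := by
  have h1 := allB_spec hA _ (t.enc_lt d)
  have hb0 : Nat.beq (get t.POS (t.enc d)) 0 = false := by
    cases e : Nat.beq (get t.POS (t.enc d)) 0
    · rfl
    · have := GoodTab.beq_eq e; omega
  rw [chkA, hb0, cond_false, ha, hb, indB_true hi, cond_true] at h1
  obtain ⟨a1, h2⟩ := Tab.bnd_spec h1
  obtain ⟨a2, h3⟩ := Tab.bnd_spec h2
  obtain ⟨a3, h4⟩ := Tab.bnd_spec h3
  obtain ⟨a4, a5⟩ := Tab.bnd_spec h4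
  exact ⟨GoodTab.blt_eq a1, GoodTab.beq_eq a2, GoodTab.blt_eq a3, GoodTab.beq_eq a4,
    GoodTab.beq_eq a5⟩

include h in
theorem oth_encL (b : Ed N M × Bool) (hb : encL b < 2 * (N * (M + 1) + (N + 1) * (M + 1))) :
    Tab.oth (encL b) = encL (flip b) := by
  have := (h.s3 hb).2.1
  rw [decL_encL] at this
  exact this.symm

theorem left_iff (a b : Ed N M × Bool) (d : Fin t.En × Bool) :
    (d ∈ (tabDrawing h).leftCrossings (tail w a) (tail w (flip a)) (tail w b)
      (tail w (flip b))) ↔ (0 < get t.POS (t.enc d) ∧ get t.LAB (t.enc d) = encL a ∧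
      get t.LAB (get t.ROT (t.enc d)) = encL b) := by
  constructor
  · rintro ⟨h1, h2, h3, h4, h5⟩
    have e1 : (labP d : Ed N M × Bool) = a := ends_inj w h2 h3
    have e2 : (labP (rotP h d) : Ed N M × Bool) = b := ends_inj w h4 h5
    refine ⟨h1, ?_, ?_⟩
    · rw [← encL_labP h, e1]
    · rw [← enc_rotP h, ← encL_labP h, e2]
  · rintro ⟨h1, h2, h3⟩
    have e1 : (labP d : Ed N M × Bool) = a := by
      apply encL_inj
      rw [encL_labP h, h2]
    have e2 : (labP (rotP h d) : Ed N M × Bool) = b := by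
      apply encL_inj
      rw [encL_labP h, enc_rotP, h3]
    refine ⟨h1, ?_, ?_, ?_, ?_⟩
    · change tail w (labP d) = _
      rw [e1]
    · change tail w (flip (labP d)) = _
      rw [e1]
    · change tail w (labP (rotP h d)) = _
      rw [e2]
    · change tail w (flip (labP (rotP h d))) = _
      rw [e2]

theorem indep_swap {a b : Ed N M × Bool}
    (hi : Indep (tail w a) (tail w (flip a)) (tail w b) (tail w (flip b))) :
    Indep (tail w a) (tail w (flip a)) (tail w (flip b)) (tail w (flip (flip b))) := by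
  obtain ⟨h1, h2, h3, h4⟩ := hi
  have : flip (flip b) = b := by simp
  rw [this]
  exact ⟨h2, h1, h4, h3⟩

theorem tab_algZero (hA : allB (2 * t.En) (chkA w M t) = true) :
    (tabDrawing h).IndepAlgZero := by
  have := h.ne
  rintro u v u' v' ⟨a, rfl, rfl⟩ ⟨b, rfl, rfl⟩ hi
  have hflip : flip (flip b) = b := by simp
  have hswap : (tabDrawing h).leftCrossings (tail w a) (tail w (flip a)) (tail w (flip b))
      (tail w b) = (tabDrawing h).leftCrossings (tail w a) (tail w (flip a)) (tail w (flip b))
      (tail w (flip (flip b))) := by rw [hflip]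
  rw [hswap]
  -- the map
  have key : ∀ b : Ed N M × Bool, Indep (tail w a) (tail w (flip a)) (tail w b)
      (tail w (flip b)) → ∀ d ∈ (tabDrawing h).leftCrossings (tail w a) (tail w (flip a))
      (tail w b) (tail w (flip b)),
      t.dec (get t.MU (t.enc d)) ∈ (tabDrawing h).leftCrossings (tail w a) (tail w (flip a))
      (tail w (flip b)) (tail w (flip (flip b))) ∧
      t.dec (get t.MU (t.enc (t.dec (get t.MU (t.enc d))))) = d := by
    intro b hib d hd
    have h1 := (left_iff h a b d).mp hd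
    have h2 := mu_spec hA h1.1 h1.2.1 h1.2.2 hib
    constructor
    · rw [left_iff h a (flip b), t.enc_dec h2.1]
      refine ⟨h2.2.2.1, h2.2.1, ?_⟩
      rw [h2.2.2.2.1]
      apply oth_encL h
      rw [← h1.2.2, ← enc_rotP h d]
      exact (h.s2 (t.enc_lt _)).1
    · rw [t.enc_dec h2.1, h2.2.2.2.2, t.dec_enc]
  refine Nat.card_congr ⟨fun d => ⟨t.dec (get t.MU (t.enc d.1)), (key b hi d.1 d.2).1⟩,
    fun d => ⟨t.dec (get t.MU (t.enc d.1)), ?_⟩, ?_, ?_⟩
  · have h1 := (key (flip b) (indep_swap hi) d.1 d.2).1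
    have hh : ∀ x, x ∈ (tabDrawing h).leftCrossings (tail w a) (tail w (flip a))
        (tail w (flip (flip b))) (tail w (flip (flip (flip b)))) →
        x ∈ (tabDrawing h).leftCrossings (tail w a) (tail w (flip a)) (tail w b)
          (tail w (flip b)) := by
      intro x hx
      rw [hflip] at hx
      exact hx
    exact hh _ h1
  · intro d
    apply Subtype.ext
    exact (key b hi d.1 d.2).2
  · intro d
    apply Subtype.ext
    exact (key (flip b) (indep_swap hi) d.1 d.2).2

end Pool.Agent.KS6_63.HT
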