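import Mathlib
import Pool.Agent.KS6_63.HT.Pos3

/-! # Even crossing numbers of the drawing given by a table -/

namespace Pool.Agent.KS6_63.HT

open Equiv Module

variable {N M k : ℕ} [NeZero N] {w : Fin (N + 1) → Fin k} {t : Tab} (h : GoodTab N M k w t)

theorem mu_specE (hA : allB (2 * t.En) (chkE w M t) = true) {d : Fin t.En × Bool}
    {a b : Ed N M × Bool} (hpos : 0 < get t.POS (t.enc d))
    (ha : get t.LAB (t.enc d) = encL a) (hb : get t.LAB (get t.ROT (t.enc d)) = encL b)
    (hi : Indep (tail w a) (tail w (flip a)) (tail w b) (tail w (flip b))) :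
    get t.MU (t.enc d) < 2 * t.En ∧
    get t.LAB (get t.MU (t.enc d)) = encL a ∧ 0 < get t.POS (get t.MU (t.enc d)) ∧
    (get t.LAB (get t.ROT (get t.MU (t.enc d))) = Tab.oth (encL b) ∨
      get t.LAB (get t.ROT (get t.MU (t.enc d))) = encL b) ∧
    get t.MU (get t.MU (t.enc d)) = t.enc d ∧ get t.MU (t.enc d) ≠ t.enc d := by
  have h1 := allB_spec hA _ (t.enc_lt d)
  have hb0 : Nat.beq (get t.POS (t.enc d)) 0 = false := by
    cases e : Nat.beq (get t.POS (t.enc d)) 0
    · rfl
    · have := GoodTab.beq_eq e; omega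
  rw [chkE, hb0, cond_false, ha, hb, indB_true hi, cond_true] at h1
  obtain ⟨a1, h2⟩ := Tab.bnd_spec h1
  obtain ⟨a2, h3⟩ := Tab.bnd_spec h2
  obtain ⟨a3, h4⟩ := Tab.bnd_spec h3
  obtain ⟨a4, h5⟩ := Tab.bnd_spec h4
  obtain ⟨a5, a6⟩ := Tab.bnd_spec h5
  refine ⟨GoodTab.blt_eq a1, GoodTab.beq_eq a2, GoodTab.blt_eq a3, ?_, GoodTab.beq_eq a5, ?_⟩
  · cases e : Nat.beq (get t.LAB (get t.ROT (get t.MU (t.enc d)))) (Tab.oth (encL b))
    · rw [e, cond_false] at a4
      exact Or.inr (GoodTab.beq_eq a4)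
    · exact Or.inl (GoodTab.beq_eq e)
  · apply GoodTab.beq_false
    cases e : Nat.beq (get t.MU (t.enc d)) (t.enc d)
    · rfl
    · rw [e] at a6; exact absurd a6 (by decide)

theorem card_left (a b : Ed N M × Bool) (S : Finset (Fin t.En × Bool))
    (hS : ∀ d, d ∈ S ↔ (0 < get t.POS (t.enc d) ∧ get t.LAB (t.enc d) = encL a ∧
      get t.LAB (get t.ROT (t.enc d)) = encL b)) :
    Nat.card ((tabDrawing h).leftCrossings (tail w a) (tail w (flip a)) (tail w b)
      (tail w (flip b))) = S.card := by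
  have e : {d : Fin t.En × Bool // d ∈ (tabDrawing h).leftCrossings (tail w a) (tail w (flip a))
      (tail w b) (tail w (flip b))} ≃ {d // d ∈ S} :=
    Equiv.subtypeEquivRight (fun d => (left_iff h a b d).trans (hS d).symm)
  exact (Nat.card_congr e).trans (by simp)

theorem tab_even (hA : allB (2 * t.En) (chkE w M t) = true) :
    (tabDrawing h).IndepEven := by
  classical
  have := h.ne
  rintro u v u' v' ⟨a, rfl, rfl⟩ ⟨b, rfl, rfl⟩ hi
  have hflip : flip (flip b) = b := by simp
  have hswap : (tabDrawing h).leftCrossings (tail w a) (tail w (flip a)) (tail w (flip b))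
      (tail w b) = (tabDrawing h).leftCrossings (tail w a) (tail w (flip a)) (tail w (flip b))
      (tail w (flip (flip b))) := by rw [hflip]
  rw [hswap]
  let S1 : Finset (Fin t.En × Bool) := Finset.univ.filter fun d =>
    0 < get t.POS (t.enc d) ∧ get t.LAB (t.enc d) = encL a ∧
      get t.LAB (get t.ROT (t.enc d)) = encL b
  let S2 : Finset (Fin t.En × Bool) := Finset.univ.filter fun d =>
    0 < get t.POS (t.enc d) ∧ get t.LAB (t.enc d) = encL a ∧
      get t.LAB (get t.ROT (t.enc d)) = encL (flip b)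
  have c1 := card_left h a b S1 (fun d => by simp [S1])
  have c2 := card_left h a (flip b) S2 (fun d => by simp [S2])
  have hbne : encL b ≠ encL (flip b) := by
    intro he
    have := congrArg Prod.snd (encL_inj he)
    simp at this
  have hdisj : Disjoint S1 S2 := by
    rw [Finset.disjoint_left]
    intro d h1 h2
    simp only [S1, S2, Finset.mem_filter, Finset.mem_univ, true_and] at h1 h2
    exact hbne (h1.2.2.symm.trans h2.2.2)
  rw [c1, c2, ← Finset.card_union_of_disjoint hdisj]
  have hmem : ∀ d, d ∈ S1 ∪ S2 ↔ (0 < get t.POS (t.enc d) ∧ get t.LAB (t.enc d) = encL a ∧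
      (get t.LAB (get t.ROT (t.enc d)) = encL b ∨
        get t.LAB (get t.ROT (t.enc d)) = encL (flip b))) := by
    intro d
    simp only [S1, S2, Finset.mem_union, Finset.mem_filter, Finset.mem_univ, true_and]
    tauto
  -- the involution
  have key : ∀ d ∈ S1 ∪ S2, t.dec (get t.MU (t.enc d)) ∈ S1 ∪ S2 ∧
      t.dec (get t.MU (t.enc d)) ≠ d ∧
      t.dec (get t.MU (t.enc (t.dec (get t.MU (t.enc d))))) = d := by
    intro d hd
    rw [hmem] at hd
    have hlt : get t.LAB (get t.ROT (t.enc d)) < 2 * (N * (M + 1) + (N + 1) * (M + 1)) := by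
      rw [← enc_rotP h d]
      exact (h.s2 (t.enc_lt _)).1
    rcases hd.2.2 with hb | hb
    · have h2 := mu_specE hA hd.1 hd.2.1 hb hi
      have hob : Tab.oth (encL b) = encL (flip b) := oth_encL h b (by rw [← hb]; exact hlt)
      refine ⟨?_, ?_, ?_⟩
      · rw [hmem, t.enc_dec h2.1]
        refine ⟨h2.2.2.1, h2.2.1, ?_⟩
        rw [← hob]
        exact h2.2.2.2.1.symm
      · intro he
        apply h2.2.2.2.2.2
        conv_rhs => rw [← he]
        rw [t.enc_dec h2.1]
      · rw [t.enc_dec h2.1, h2.2.2.2.2.1, t.dec_enc]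
    · have h2 := mu_specE hA hd.1 hd.2.1 hb (indep_swap hi)
      have hob : Tab.oth (encL (flip b)) = encL b := by
        rw [oth_encL h (flip b) (by rw [← hb]; exact hlt), hflip]
      refine ⟨?_, ?_, ?_⟩
      · rw [hmem, t.enc_dec h2.1]
        refine ⟨h2.2.2.1, h2.2.1, ?_⟩
        rw [← hob]
        exact h2.2.2.2.1
      · intro he
        apply h2.2.2.2.2.2
        conv_rhs => rw [← he]
        rw [t.enc_dec h2.1]
      · rw [t.enc_dec h2.1, h2.2.2.2.2.1, t.dec_enc]
  have hsum : ∑ _d ∈ S1 ∪ S2, (1 : ZMod 2) = 0 := by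
    refine Finset.sum_involution (fun d _ => t.dec (get t.MU (t.enc d))) ?_ ?_ ?_ ?_
    · intro d _; rfl
    · intro d hd _; exact (key d hd).2.1
    · intro d hd; exact (key d hd).1
    · intro d hd; exact (key d hd).2.2
  rw [Finset.sum_const, nsmul_eq_mul, mul_one] at hsum
  exact (ZMod.natCast_eq_zero_iff_even).mp hsum

end Pool.Agent.KS6_63.HT
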